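import Pool.Agent.TH116.PT.Basic

/-!
# The Alperin-McKay-Navarro conjecture up to a subpolynomial factor

Consider pairs `b = (B, K)` of a `p`-block `B` of a finite group `G` and a group `K` of Galois
automorphisms in the group `𝓗` of the conjecture which stabilize `B`. Let `x(b)` be the number of
`K`-invariant height zero characters of `B` and `y(b)` the number of `K`-invariant height zero
characters of its Brauer correspondent. By a theorem of Burnside there is an `𝓗_B`-equivariant
bijection between the height zero characters if and only if `x(B, K) = y(B, K)` for all `K`. The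
powers are `(B ⊗ ... ⊗ B, K)`; the set of height zero characters of `B ⊗ ... ⊗ B` is the power of the
one of `B`, with the diagonal action, and the same holds for the Brauer correspondents, so both
numbers are multiplicative.

Theorem. The Alperin-McKay-Navarro conjecture holds for all blocks (or for all blocks in a family
closed under powers) if and only if for all `ε > 0` there is `C` such that for all `B` and `K`,
`x(B, K) ≤ C |G|^ε y(B, K)` and `y(B, K) ≤ C |G|^ε x(B, K)`. The two inequalities are also separately
equivalent to their versions up to such factors.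
-/

set_option autoImplicit false

universe u

namespace Pool.Agent.Results.MP_7f1e7e_al.SubpolynomialFactor

/-- A family of pairs `(B, K)` closed under powers, with the numbers of `K`-invariant height zero
characters of `B` and of its Brauer correspondent. -/
structure Family where
  /-- the blocks `b` (with the groups `G` which they belong to) -/
  B : Type u
  /-- the block `b ⊗ ... ⊗ b` of `G × ... × G` -/
  pow : B → ℕ → B
  /-- the order of `G` -/
  order : B → ℕ
  order_pos : ∀ b, 1 ≤ order b
  order_pow : ∀ b n, order (pow b n) = order b ^ n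
  /-- the number of `K`-invariant height zero characters of `B` -/
  x : B → ℕ
  x_pow : ∀ b n, x (pow b n) = x b ^ n
  /-- the number of `K`-invariant height zero characters of the Brauer correspondent -/
  y : B → ℕ
  y_pow : ∀ b n, y (pow b n) = y b ^ n

/-- For every family of pairs closed under powers, the inequalities `x ≤ y`, `y ≤ x`, and the
equality `x = y` are equivalent to their versions up to factors `C |G| ^ ε`, `ε > 0`. -/
theorem result (T : Family.{u}) :
    ((∀ b, T.x b ≤ T.y b) ↔ ∀ ε : ℝ, 0 < ε → ∃ C : ℝ, ∀ b,
      (T.x b : ℝ) ≤ C * (T.order b : ℝ) ^ ε * T.y b) ∧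
    ((∀ b, T.y b ≤ T.x b) ↔ ∀ ε : ℝ, 0 < ε → ∃ C : ℝ, ∀ b,
      (T.y b : ℝ) ≤ C * (T.order b : ℝ) ^ ε * T.x b) ∧
    ((∀ b, T.x b = T.y b) ↔ ∀ ε : ℝ, 0 < ε → ∃ C : ℝ, ∀ b,
      (T.x b : ℝ) ≤ C * (T.order b : ℝ) ^ ε * T.y b ∧
        (T.y b : ℝ) ≤ C * (T.order b : ℝ) ^ ε * T.x b) := by
  have h := Pool.Agent.TH116.PT.multiplicative_iff T.pow (f := fun b => (T.x b : ℝ))
    (g := fun b => (T.y b : ℝ)) (s := fun b => (T.order b : ℝ))
    (fun b n => by rw [T.x_pow]; push_cast; rfl)
    (fun b n => by rw [T.y_pow]; push_cast; rfl)
    (fun b n => by rw [T.order_pow]; push_cast; exact le_rfl)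
    (fun b => Nat.cast_nonneg _) (fun b => Nat.cast_nonneg _)
    (fun b => by exact_mod_cast T.order_pos b)
  simpa only [Nat.cast_le, Nat.cast_inj] using h

end Pool.Agent.Results.MP_7f1e7e_al.SubpolynomialFactor
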